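import Pool.Agent.Q31.NF.RAYA
import Pool.Agent.Q246.UnramPk
import Pool.Agent.Y772.DK.Main

set_option autoImplicit false

/-!
Project NF (helper253), job RAYD: the L-functions of primitive ray class characters.
-/

namespace Pool.Agent.Q31.NF

open MeasureTheory Filter Topology Set Complex NumberField IsDedekindDomain
open Pool.Agent.Q253.NF
open Pool.Agent.Y773 (LI GG TPos VM)
open Pool.Agent.Y772.DK (LA ee ee_zero ee_le VM_of_not VM_pow D_hasSum deriv_LI LI_eq_exp)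
open Pool.Agent.W169.HF (Slow)
open Pool.Agent.Q246
open scoped ComplexConjugate

section
variable {K : Type} [Field K] [NumberField K]

/-- `(k + 1) log q_v` -/
noncomputable def ll (x : HeightOneSpectrum (𝓞 K) × ℕ) : ℝ :=
  ((x.2 : ℝ) + 1) * Real.log (Ideal.absNorm x.1.asIdeal)

/-- the coefficients -/
noncomputable def bb (ψ : Ideal (𝓞 K) →*₀ ℂ) (x : HeightOneSpectrum (𝓞 K) × ℕ) : ℂ :=
  ψ x.1.asIdeal ^ (x.2 + 1) * ((Real.log (Ideal.absNorm x.1.asIdeal) *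
    Real.exp (-(((x.2 : ℝ) + 1) * Real.log (Ideal.absNorm x.1.asIdeal) / 2)) : ℝ) : ℂ)

theorem ll_nonneg (x : HeightOneSpectrum (𝓞 K) × ℕ) : 0 ≤ ll x := by
  unfold ll
  have := Real.log_natCast_nonneg (Ideal.absNorm x.1.asIdeal)
  positivity

theorem hasSum_pr {ψ : Ideal (𝓞 K) →*₀ ℂ} (hψ : ∀ 𝔞, ‖ψ 𝔞‖ ≤ 1) {s : ℂ} (hs : 1 < s.re) :
    HasSum (fun x : HeightOneSpectrum (𝓞 K) × ℕ => bb ψ x * cexp (-(s - 1 / 2) * (ll x : ℝ)))
      (-(logDeriv (LI ψ) s)) := by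
  have h1 := D_hasSum ψ hψ hs
  have hne : LI ψ s ≠ 0 := by
    rw [LI_eq_exp ψ hψ hs]
    exact Complex.exp_ne_zero _
  have h0 : logDeriv (LI ψ) s = deriv (LA (ee ψ)) s := by
    rw [logDeriv_apply, deriv_LI ψ hψ hs, mul_div_assoc, div_self hne, mul_one]
  rw [← h0] at h1
  let j : HeightOneSpectrum (𝓞 K) × ℕ → Ideal (𝓞 K) := fun x => x.1.asIdeal ^ (x.2 + 1)
  have hj : Function.Injective j := by
    rintro ⟨p, k⟩ ⟨q, l⟩ h
    have hp : Prime p.asIdeal := p.prime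
    have hq : Prime q.asIdeal := q.prime
    have h2 : p.asIdeal ^ (k + 1) = q.asIdeal ^ (l + 1) := h
    have hpq : p.asIdeal = q.asIdeal := by
      have h3 : p.asIdeal ∣ q.asIdeal :=
        hp.dvd_of_dvd_pow (h2 ▸ dvd_pow_self p.asIdeal (by omega))
      have := (hp.dvd_prime_iff_associated hq).mp h3
      rwa [associated_iff_eq] at this
    have hpq' : p = q := HeightOneSpectrum.ext hpq
    subst hpq'
    have h4 : k + 1 = l + 1 := by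
      exact pow_injective_of_not_isUnit hp.not_isUnit hp.ne_zero h2
    have h5 : k = l := by omega
    rw [h5]
  have h2 : HasSum ((fun 𝔞 : Ideal (𝓞 K) => (VM 𝔞 : ℂ) * ψ 𝔞 * ((Ideal.absNorm 𝔞 : ℕ) : ℂ) ^ (-s)) ∘ j)
      (-(logDeriv (LI ψ) s)) := by
    rw [hj.hasSum_iff]
    · exact h1
    · intro 𝔞 h𝔞
      have h3 : ¬ IsPrimePow 𝔞 := by
        rintro ⟨p, k, hp, hk, rfl⟩
        apply h𝔞
        refine ⟨(⟨p, Ideal.isPrime_of_prime hp, hp.ne_zero⟩, k - 1), ?_⟩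
        change p ^ (k - 1 + 1) = p ^ k
        rw [Nat.sub_add_cancel hk]
      rw [VM_of_not h3, ofReal_zero, zero_mul, zero_mul]
  refine h2.congr_fun ?_
  rintro ⟨v, k⟩
  have hv : Prime v.asIdeal := v.prime
  have h4 : Ideal.absNorm v.asIdeal ≠ 0 := fun h1 => hv.ne_zero (Ideal.absNorm_eq_zero_iff.mp h1)
  change bb ψ (v, k) * cexp (-(s - 1 / 2) * (ll (v, k) : ℝ)) =
    (VM (v.asIdeal ^ (k + 1)) : ℂ) * ψ (v.asIdeal ^ (k + 1)) *
      ((Ideal.absNorm (v.asIdeal ^ (k + 1)) : ℕ) : ℂ) ^ (-s)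
  have h6 : ((Ideal.absNorm (v.asIdeal ^ (k + 1)) : ℕ) : ℂ) ^ (-s) =
      cexp (-s * (ll (v, k) : ℝ)) := by
    have h7 : ((Ideal.absNorm (v.asIdeal ^ (k + 1)) : ℕ) : ℂ) ≠ 0 := by
      rw [map_pow]
      exact_mod_cast pow_ne_zero _ h4
    rw [cpow_def_of_ne_zero h7, ← Complex.natCast_log, map_pow, Nat.cast_pow, Real.log_pow]
    congr 1
    unfold ll
    push_cast
    ring
  rw [h6, VM_pow hv (by omega), map_pow]
  unfold bb
  have h8 : cexp (-s * (ll (v, k) : ℝ)) = cexp (-((ll (v, k) : ℂ) / 2)) *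
      cexp (-(s - 1 / 2) * (ll (v, k) : ℝ)) := by
    rw [← Complex.exp_add]
    congr 1
    ring
  rw [h8]
  have h9 : ((Real.exp (-(((k : ℝ) + 1) * Real.log (Ideal.absNorm v.asIdeal) / 2)) : ℝ) : ℂ) =
      cexp (-((ll (v, k) : ℂ) / 2)) := by
    rw [Complex.ofReal_exp]
    congr 1
    unfold ll
    push_cast
    ring
  rw [Complex.ofReal_mul]
  change ψ v.asIdeal ^ (k + 1) * (((Real.log (Ideal.absNorm v.asIdeal) : ℝ) : ℂ) *
    ((Real.exp (-(((k : ℝ) + 1) * Real.log (Ideal.absNorm v.asIdeal) / 2)) : ℝ) : ℂ)) * _ = _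
  rw [h9]
  ring

theorem summable_pr {ψ : Ideal (𝓞 K) →*₀ ℂ} (hψ : ∀ 𝔞, ‖ψ 𝔞‖ ≤ 1) {x : ℝ} (hx : 1 / 2 < x) :
    Summable (fun k => ‖bb ψ k‖ * Real.exp (-(x * ll k))) := by
  have h1 := (hasSum_pr hψ (s := ((1 / 2 + x : ℝ) : ℂ)) (by
    rw [ofReal_re]
    linarith)).summable.norm
  refine h1.congr fun k => ?_
  rw [norm_mul, Complex.norm_exp]
  congr 2
  have e1 : -(((1 / 2 + x : ℝ) : ℂ) - 1 / 2) * (ll k : ℝ) = ((-(x * ll k) : ℝ) : ℂ) := by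
    push_cast
    ring
  rw [e1, ofReal_re]

theorem ks_eq (ψ : Ideal (𝓞 K) →*₀ ℂ) (u : ℝ) :
    ks (univ : Set (HeightOneSpectrum (𝓞 K))) (fun v n => ψ v.asIdeal ^ (n + 1)) u =
      ∑' k, bb ψ k * ((Real.exp (-|u - ll k|) : ℝ) : ℂ) := by
  unfold ks
  refine tsum_congr fun x => ?_
  rw [if_pos (mem_univ _)]
  unfold bb ll
  rw [mul_assoc (ψ x.1.asIdeal ^ (x.2 + 1)), ← Complex.ofReal_mul]

/-- the completed L-function -/
theorem core {𝔣 : Ideal (𝓞 K)} {e : InfinitePlace K → ℕ} {ψ : Ideal (𝓞 K) →*₀ ℂ} (h : Prim 𝔣 e ψ) :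
    (∀ 𝔞, ‖ψ 𝔞‖ ≤ 1) ∧ 0 < (Ideal.absNorm 𝔣 : ℝ) * |(discr K : ℝ)| ∧
    (∀ s : ℂ, (∏ φ : K →+* ℂ, Gammaℝ (s + (Pool.Agent.Y773.G.ex e φ : ℂ))) = gam e s) ∧
    ∃ (Λ : ℂ → ℂ) (w : ℂ), Slow Λ ∧ ‖w‖ = 1 ∧ (∀ s, Λ s = w * conj (Λ (1 - conj s))) ∧
      (open Classical in ∀ s : ℂ, 1 < s.re → Λ s = (s * (s - 1)) ^
        (if ∀ 𝔞 : Ideal (𝓞 K), 𝔞 ≠ ⊥ → ψ 𝔞 = 1 then 1 else 0) *
        (GG ((Ideal.absNorm 𝔣 : ℝ) * |(discr K : ℝ)|) (Pool.Agent.Y773.G.ex e) s * LI ψ s)) := by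
  classical
  obtain ⟨ne_bot, e_le, e_complex, supp, sig, prim⟩ := h
  have hdisc : ((Ideal.absNorm (differentIdeal ℤ (𝓞 K)) : ℕ) : ℝ) = |(discr K : ℝ)| := by
    rw [absNorm_differentIdeal K, ← Int.cast_abs, ← Int.natCast_natAbs, Int.cast_natCast]
  -- the signs
  have hsg : ∀ x : K, Pool.Agent.Y773.G.sg e x = ∏ w : InfinitePlace K,
      (((SignType.sign (w.embedding x).re : SignType) : ℤ) : ℂ) ^ e w := by
    intro x
    unfold Pool.Agent.Y773.G.sg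
    refine Finset.prod_congr rfl fun w _ => ?_
    rcases w.isReal_or_isComplex with hw | hw
    · rw [Pool.Agent.Y773.G.rl_of_isReal hw]
    · rw [e_complex w hw, pow_zero, pow_zero]
  have hsig : ∀ x : 𝓞 K, x ≠ 0 → x - 1 ∈ 𝔣 →
      ψ (Ideal.span {x}) = Pool.Agent.Y773.G.sg e (x : K) := by
    intro x h0 h1
    rw [sig x h0 h1, hsg]
  have hray : ∀ x : 𝓞 K, x ≠ 0 → x - 1 ∈ 𝔣 → TPos K x → ψ (Ideal.span {x}) = 1 := by
    intro x h0 h1 h2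
    rw [hsig x h0 h1, Pool.Agent.Y773.G.sg_TPos e h0 h2]
  have hp : Pool.Agent.Y773.G.IsPrimChar K 𝔣 ψ := ⟨ne_bot, supp, hray, prim⟩
  have hn1 : ∀ 𝔞, ‖ψ 𝔞‖ ≤ 1 := hp.norm_le_one Pool.Agent.Y772.G.t_sig
  -- the Gamma factor
  have hgam : ∀ s : ℂ, (∏ φ : K →+* ℂ, Gammaℝ (s + (Pool.Agent.Y773.G.ex e φ : ℂ))) = gam e s := by
    intro s
    rw [Pool.Agent.Y773.G.prod_ex e fun n => Gammaℝ (s + (n : ℂ))]
    unfold gam
    refine Finset.prod_congr rfl fun w _ => ?_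
    split_ifs with hw
    · rfl
    · rw [Nat.cast_zero, add_zero, Nat.cast_one, Gammaℝ_mul_Gammaℝ_add_one]
  have hNpos : 0 < (Ideal.absNorm 𝔣 : ℝ) * |(discr K : ℝ)| := by
    have h1 : 0 < Ideal.absNorm 𝔣 := Nat.pos_of_ne_zero fun h1 =>
      ne_bot (Ideal.absNorm_eq_zero_iff.mp h1)
    have h2 : (discr K : ℝ) ≠ 0 := by exact_mod_cast discr_ne_zero K
    have h3 : (0 : ℝ) < (Ideal.absNorm 𝔣 : ℝ) := by exact_mod_cast h1
    exact mul_pos h3 (abs_pos.2 h2)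
  have hLd : ∀ s : ℂ, 1 < s.re → DifferentiableAt ℂ (LI ψ) s := by
    obtain ⟨A, hA, hdir⟩ := Pool.Agent.Y772.DK.t_dirK K
    exact (hdir ψ hn1).2.1
  refine ⟨hn1, hNpos, hgam, ?_⟩
  set N : ℝ := (Ideal.absNorm 𝔣 : ℝ) * |(discr K : ℝ)| with hN
  -- the identity theorem
  have ext : ∀ (p : ℕ) (X : ℂ → ℂ), Differentiable ℂ X →
      (∃ σ : ℝ, ∀ s : ℂ, σ ≤ s.re → X s = (s * (s - 1)) ^ p *
        (GG N (Pool.Agent.Y773.G.ex e) s * LI ψ s)) →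
      ∀ s : ℂ, 1 < s.re → X s = (s * (s - 1)) ^ p * (GG N (Pool.Agent.Y773.G.ex e) s * LI ψ s) := by
    intro p X hX hσ s hs
    obtain ⟨σ, hσ⟩ := hσ
    set U : Set ℂ := {z | 1 < z.re} with hU
    have hUo : IsOpen U := isOpen_lt continuous_const continuous_re
    have hUc : IsPreconnected U := (convex_halfSpace_re_gt 1).isPreconnected
    have hf : AnalyticOnNhd ℂ X U := fun z _ => hX.analyticAt z
    have hg : AnalyticOnNhd ℂ (fun s : ℂ => (s * (s - 1)) ^ p *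
        (GG N (Pool.Agent.Y773.G.ex e) s * LI ψ s)) U := by
      apply DifferentiableOn.analyticOnNhd _ hUo
      intro z hz
      have hz1 : 1 < z.re := hz
      apply DifferentiableAt.differentiableWithinAt
      have h1 : DifferentiableAt ℂ (fun s : ℂ => (s * (s - 1)) ^ p) z := by fun_prop
      exact h1.mul ((GG_diffAt hNpos _ (by linarith)).mul (hLd z hz1))
    set z0 : ℂ := ((max σ 1 + 1 : ℝ) : ℂ) with hz0
    have hz0re : z0.re = max σ 1 + 1 := by rw [hz0, ofReal_re]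
    have hz0U : z0 ∈ U := by
      show 1 < z0.re
      rw [hz0re]
      have := le_max_right σ 1
      linarith
    have hev : X =ᶠ[𝓝 z0] (fun s : ℂ => (s * (s - 1)) ^ p *
        (GG N (Pool.Agent.Y773.G.ex e) s * LI ψ s)) := by
      have h1 : ∀ᶠ z in 𝓝 z0, σ < z.re := (isOpen_lt continuous_const continuous_re).mem_nhds (by
        show σ < z0.re
        rw [hz0re]
        have := le_max_left σ 1
        linarith)
      filter_upwards [h1] with y hy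
      exact hσ y hy.le
    exact hf.eqOn_of_preconnected_of_eventuallyEq hg hUc hz0U hev hs
  by_cases htop : 𝔣 = ⊤
  · -- unramified characters
    have hUC : Unr.UC e ψ := by
      refine ⟨e_le, e_complex, fun 𝔞 h0 => ?_, fun x h0 => hsig x h0 (by rw [htop]; trivial)⟩
      refine (supp 𝔞 h0).2 ?_
      rw [htop]
      exact Ideal.isCoprime_iff_sup_eq.2 (by simp)
    obtain ⟨X, μ, L, hUL, -, hX⟩ := HPk.unr_pk hUC
    have hcond : N = ((Ideal.absNorm (differentIdeal ℤ (𝓞 K)) : ℕ) : ℝ) := by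
      rw [hN, htop, ← Ideal.one_eq_top, map_one, Nat.cast_one, one_mul, hdisc]
    rw [← hcond] at hX
    obtain ⟨w, hw, hfe⟩ := hUL.fe
    exact ⟨X, w, hUL.slow, hw, hfe, ext _ X hUL.slow.1 hX⟩
  · -- ramified characters
    have hM : Pool.Agent.Y773.G.IsModChar 𝔣 e ψ := by
      refine ⟨ne_bot, htop, e_le, e_complex, fun 𝔞 => ?_, hsig⟩
      by_cases h0 : 𝔞 = ⊥
      · subst h0
        have h1 : ψ (⊥ : Ideal (𝓞 K)) = 0 := map_zero ψ
        constructor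
        · intro h2
          exact absurd h1 h2
        · intro h2
          exfalso
          rw [Ideal.isCoprime_iff_sup_eq, bot_sup_eq] at h2
          exact htop h2
      · exact supp 𝔞 h0
    obtain ⟨X, μ, L, hUL, -, hX⟩ := HPk.hecke_pk hp hM
    have hcond : N =
        ((Ideal.absNorm 𝔣 * Ideal.absNorm (differentIdeal ℤ (𝓞 K)) : ℕ) : ℝ) := by
      rw [hN, ← hdisc]
      push_cast
      rfl
    have hpole : (if ∀ 𝔞 : Ideal (𝓞 K), 𝔞 ≠ ⊥ → ψ 𝔞 = 1 then 1 else 0) = 0 := by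
      rw [if_neg]
      intro htriv
      obtain ⟨x, -, h2, h3, h4⟩ := prim ⊤ (by rw [← Ideal.one_eq_top]; exact one_dvd _)
        (fun h => htop h.symm)
      apply h4
      apply htriv
      intro h5
      rw [h5, Ideal.isCoprime_iff_sup_eq, bot_sup_eq] at h3
      exact htop h3
    rw [← hcond] at hX
    obtain ⟨w, hw, hfe⟩ := hUL.fe
    rw [hpole]
    refine ⟨X, w, hUL.slow, hw, hfe, ext _ X hUL.slow.1 ?_⟩
    obtain ⟨σ, hσ⟩ := hX
    refine ⟨σ, fun s hs => ?_⟩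
    rw [pow_zero, one_mul]
    exact hσ s hs

end

theorem rayd : S_RAYD := by
  classical
  intro hLTG F _ _ 𝔣 e ψ h
  obtain ⟨hn1, hN, hgam, Λ, w, hΛ, hw, hfe, hEq⟩ := core h
  have hex : ∀ φ : F →+* ℂ, Pool.Agent.Y773.G.ex e φ ≤ 1 := Pool.Agent.Y773.G.ex_le h.e_le
  have hLd : ∀ s : ℂ, 1 < s.re → DifferentiableAt ℂ (LI ψ) s := by
    obtain ⟨A, hA, hdir⟩ := Pool.Agent.Y772.DK.t_dirK F
    exact (hdir ψ hn1).2.1
  obtain ⟨c, D, hc, hE, hp, hX⟩ := mk_dat hLTG (HeightOneSpectrum (𝓞 F) × ℕ) (bb ψ) ll ll_nonneg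
    (fun x hx => summable_pr hn1 hx) Λ w hΛ hw hfe _ hN (Pool.Agent.Y773.G.ex e) hex
    (if ∀ 𝔞 : Ideal (𝓞 F), 𝔞 ≠ ⊥ → ψ 𝔞 = 1 then 1 else 0) (LI ψ) hLd
    (fun s hs => by
      rw [LI_eq_exp ψ hn1 hs]
      exact Complex.exp_ne_zero _)
    (fun s hs => by
      rw [(hasSum_pr hn1 hs).tsum_eq, neg_neg])
    hEq
  refine ⟨D, ⟨fun u => by rw [hE, ks_eq], hp, c, hc, fun z hz => ?_⟩⟩
  have hs : 1 < (1 / 2 + z : ℂ).re := by
    rw [add_re]
    norm_num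
    linarith
  rw [hX, hEq _ hs, hp]
  unfold GG
  rw [hgam]
  have e1 : (1 / 2 + z : ℂ) - 1 = z - 1 / 2 := by ring
  rw [e1]
  ring

end Pool.Agent.Q31.NF
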