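import Pool.Agent.Q253.NF.Stm2
import Pool.Agent.W169.HF.Defs

set_option autoImplicit false

/-!
Project NF (helper253), job RAYD, first part: the data `Dat` from a completed L-function.
-/

namespace Pool.Agent.Q31.NF

open MeasureTheory Filter Topology Set Complex NumberField IsDedekindDomain
open Pool.Agent.Q253.NF
open Pool.Agent.Y773 (LI GG)
open Pool.Agent.W169.HF (Slow)
open scoped ComplexConjugate

theorem gaR_ne {s : ℂ} (hs : 0 < s.re) : Gammaℝ s ≠ 0 := Gammaℝ_ne_zero_of_re_pos hs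

theorem gaR_diff {s : ℂ} (hs : 0 < s.re) : DifferentiableAt ℂ Gammaℝ s := by
  have h1 := (differentiable_Gammaℝ_inv s).inv (inv_ne_zero (gaR_ne hs))
  have h2 : (fun z => (Gammaℝ z)⁻¹)⁻¹ = Gammaℝ := by
    funext z
    simp
  rw [h2] at h1
  exact h1

theorem gaR_shift (a : ℂ) (s : ℂ) : logDeriv (fun z => Gammaℝ (z + a)) s = logDeriv Gammaℝ (s + a) := by
  rw [logDeriv_apply, logDeriv_apply, deriv_comp_add_const]

theorem gaR_shift_diff (a : ℕ) {s : ℂ} (hs : 0 < s.re) :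
    DifferentiableAt ℂ (fun z => Gammaℝ (z + (a : ℂ))) s := by
  have h1 : DifferentiableAt ℂ Gammaℝ (s + (a : ℂ)) := by
    apply gaR_diff
    rw [add_re, natCast_re]
    positivity
  exact h1.comp s (differentiableAt_id.add_const _)

section
variable {ι : Type} [Fintype ι]

/-- the number of the Gamma factors with shift `a` -/
noncomputable def mu (e : ι → ℕ) (a : ℕ) : ℕ := (Finset.univ.filter fun i => e i = a).card

theorem sum_mu (e : ι → ℕ) (he : ∀ i, e i ≤ 1) (f : ℕ → ℂ) :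
    ∑ i, f (e i) = mu e 0 * f 0 + mu e 1 * f 1 := by
  classical
  have h1 : ∀ i, f (e i) = (if e i = 0 then f 0 else 0) + (if e i = 1 then f 1 else 0) := by
    intro i
    have := he i
    interval_cases h : e i <;> simp
  rw [Finset.sum_congr rfl fun i _ => h1 i, Finset.sum_add_distrib, ← Finset.sum_filter,
    ← Finset.sum_filter, Finset.sum_const, Finset.sum_const, nsmul_eq_mul, nsmul_eq_mul]
  rfl

theorem GG_ne {N : ℝ} (hN : 0 < N) (e : ι → ℕ) {s : ℂ} (hs : 0 < s.re) : GG N e s ≠ 0 := by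
  unfold GG
  refine mul_ne_zero ?_ (Finset.prod_ne_zero_iff.2 fun i _ => ?_)
  · rw [cpow_def_of_ne_zero (by exact_mod_cast hN.ne')]
    exact Complex.exp_ne_zero _
  · apply gaR_ne
    rw [add_re, natCast_re]
    positivity

theorem GG_diffAt {N : ℝ} (hN : 0 < N) (e : ι → ℕ) {s : ℂ} (hs : 0 < s.re) :
    DifferentiableAt ℂ (GG N e) s := by
  unfold GG
  refine DifferentiableAt.mul ?_ ?_
  · have hR' : (N : ℂ) ≠ 0 := by exact_mod_cast hN.ne'
    exact ((differentiableAt_id.div_const 2)).const_cpow (Or.inl hR')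
  · exact DifferentiableAt.fun_finsetProd fun i _ => gaR_shift_diff _ hs

theorem GG_logDeriv {N : ℝ} (hN : 0 < N) (e : ι → ℕ) (he : ∀ i, e i ≤ 1) {s : ℂ} (hs : 0 < s.re) :
    logDeriv (GG N e) s = ((Real.log N / 2 : ℝ) : ℂ) + mu e 0 * logDeriv Gammaℝ s +
      mu e 1 * logDeriv Gammaℝ (s + 1) := by
  have hR' : (N : ℂ) ≠ 0 := by exact_mod_cast hN.ne'
  have hd1 : HasDerivAt (fun z : ℂ => (N : ℂ) ^ (z / 2))
      ((N : ℂ) ^ (s / 2) * Complex.log N * (1 / 2)) s :=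
    ((hasDerivAt_id s).div_const 2).const_cpow (Or.inl hR')
  have hn1 : (N : ℂ) ^ (s / 2) ≠ 0 := by
    rw [cpow_def_of_ne_zero hR']
    exact Complex.exp_ne_zero _
  have hl1 : logDeriv (fun z : ℂ => (N : ℂ) ^ (z / 2)) s = ((Real.log N / 2 : ℝ) : ℂ) := by
    rw [logDeriv_apply, hd1.deriv, ← Complex.ofReal_log hN.le]
    push_cast
    field_simp
  have hne : ∀ i ∈ (Finset.univ : Finset ι), Gammaℝ (s + (e i : ℂ)) ≠ 0 := by
    intro i _
    apply gaR_ne
    rw [add_re, natCast_re]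
    positivity
  have hl2 : logDeriv (fun z : ℂ => ∏ i, Gammaℝ (z + (e i : ℂ))) s =
      ∑ i, logDeriv Gammaℝ (s + (e i : ℂ)) := by
    have h1 := logDeriv_prod (s := (Finset.univ : Finset ι)) (x := s)
      (f := fun (i : ι) (z : ℂ) => Gammaℝ (z + (e i : ℂ))) hne
      (fun i _ => gaR_shift_diff _ hs)
    refine h1.trans ?_
    refine Finset.sum_congr rfl fun i _ => ?_
    exact gaR_shift _ _
  have hd2 : DifferentiableAt ℂ (fun z : ℂ => ∏ i, Gammaℝ (z + (e i : ℂ))) s :=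
    DifferentiableAt.fun_finsetProd fun i _ => gaR_shift_diff _ hs
  have h3 : GG N e = fun z : ℂ => (N : ℂ) ^ (z / 2) * ∏ i, Gammaℝ (z + (e i : ℂ)) := rfl
  rw [h3, logDeriv_mul s hn1 (Finset.prod_ne_zero_iff.2 hne) hd1.differentiableAt hd2, hl1, hl2,
    sum_mu e he fun n => logDeriv Gammaℝ (s + (n : ℂ))]
  simp only [Nat.cast_zero, add_zero, Nat.cast_one]
  ring

end

theorem pole_logDeriv (p : ℕ) {s : ℂ} (h0 : s ≠ 0) (h1 : s ≠ 1) :
    logDeriv (fun z : ℂ => (z * (z - 1)) ^ p) s = p * (1 / s + 1 / (s - 1)) := by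
  have n2' : s - 1 ≠ 0 := sub_ne_zero.2 h1
  have h2 : HasDerivAt (fun z : ℂ => z * (z - 1)) (1 * (s - 1) + s * 1) s :=
    (hasDerivAt_id s).mul ((hasDerivAt_id s).sub_const 1)
  have h3 := h2.fun_pow p
  rw [logDeriv_apply, h3.deriv]
  rcases Nat.eq_zero_or_pos p with h4 | h4
  · subst h4
    simp
  · obtain ⟨q, rfl⟩ : ∃ q, p = q + 1 := ⟨p - 1, by omega⟩
    rw [Nat.add_sub_cancel, pow_succ]
    field_simp

/-- a square root of norm one -/
theorem exists_rot {w : ℂ} (hw : ‖w‖ = 1) : ∃ c : ℂ, ‖c‖ = 1 ∧ c = conj c * conj w := by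
  obtain ⟨c, hc⟩ := IsAlgClosed.exists_pow_nat_eq (conj w) (by norm_num : 0 < 2)
  have h1 : ‖c‖ ^ 2 = 1 := by
    rw [← norm_pow, hc, Complex.norm_conj, hw]
  have h2 : ‖c‖ = 1 := by
    have := norm_nonneg c
    nlinarith
  refine ⟨c, h2, ?_⟩
  have h3 : conj c * c = 1 := by
    rw [mul_comm, Complex.mul_conj, Complex.normSq_eq_norm_sq, h2]
    norm_num
  rw [← hc, pow_two, ← mul_assoc, h3, one_mul]

/-- **The data from the completed L-function.** -/
theorem mk_dat (hLTG : S_LTG) (κ : Type) (b : κ → ℂ) (l : κ → ℝ) (hl : ∀ k, 0 ≤ l k)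
    (hsum : ∀ x : ℝ, 1 / 2 < x → Summable (fun k => ‖b k‖ * Real.exp (-(x * l k))))
    (Λ : ℂ → ℂ) (w : ℂ) (hΛ : Slow Λ) (hw : ‖w‖ = 1) (hfe : ∀ s, Λ s = w * conj (Λ (1 - conj s)))
    (N : ℝ) (hN : 0 < N) {ι : Type} [Fintype ι] (e : ι → ℕ) (he : ∀ i, e i ≤ 1) (p : ℕ)
    (L : ℂ → ℂ) (hL : ∀ s : ℂ, 1 < s.re → DifferentiableAt ℂ L s)
    (hL0 : ∀ s : ℂ, 1 < s.re → L s ≠ 0)
    (hLd : ∀ s : ℂ, 1 < s.re → logDeriv L s = - ∑' k, b k * cexp (-(s - 1 / 2) * l k))
    (hEq : ∀ s : ℂ, 1 < s.re → Λ s = (s * (s - 1)) ^ p * (GG N e s * L s)) :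
    ∃ (c : ℂ) (D : Dat), c ≠ 0 ∧
      (∀ u, D.E u = ∑' k, b k * ((Real.exp (-|u - l k|) : ℝ) : ℂ)) ∧ D.p = p ∧
      (∀ z, D.X z = c * Λ (1 / 2 + z)) := by
  obtain ⟨c, hc, hcw⟩ := exists_rot hw
  have hc0 : c ≠ 0 := by
    intro h
    rw [h, norm_zero] at hc
    exact zero_ne_one hc
  obtain ⟨hcont, hlt⟩ := hLTG κ b l hl hsum
  obtain ⟨hΛd, hΛg⟩ := hΛ
  have hsymX : ∀ z : ℂ, c * Λ (1 / 2 + -conj z) = conj (c * Λ (1 / 2 + z)) := by
    intro z
    have h1 := hfe (1 / 2 + z)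
    have h2 : 1 - conj (1 / 2 + z) = 1 / 2 + -conj z := by
      rw [map_add, map_div₀, map_one, map_ofNat]
      ring
    rw [h2] at h1
    rw [h1, map_mul, map_mul, Complex.conj_conj, ← mul_assoc, ← hcw]
  have hnz : ∀ s : ℂ, 1 < s.re → Λ s ≠ 0 := by
    intro s hs
    rw [hEq s hs]
    have n1 : s ≠ 0 := by rintro rfl; simp at hs; linarith
    have n2 : s - 1 ≠ 0 := by
      intro h
      rw [sub_eq_zero] at h
      rw [h] at hs
      simp at hs
    exact mul_ne_zero (pow_ne_zero _ (mul_ne_zero n1 n2))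
      (mul_ne_zero (GG_ne hN e (by linarith)) (hL0 s hs))
  have hre : ∀ z : ℂ, (1 / 2 + z).re = 1 / 2 + z.re := by
    intro z
    rw [add_re]
    norm_num
  have hhalf : ∀ z : ℂ, 1 / 2 < z.re → c * Λ (1 / 2 + z) ≠ 0 := by
    intro z hz
    exact mul_ne_zero hc0 (hnz _ (by rw [hre]; linarith))
  refine ⟨c, ⟨fun u => ∑' k, b k * ((Real.exp (-|u - l k|) : ℝ) : ℂ),
    fun z => ∑' k, b k * cexp (-z * l k), fun z => c * Λ (1 / 2 + z), Real.log N / 2, mu e 0, mu e 1,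
    p, hcont, ?_, ?_, hsymX, ?_, ?_, ?_⟩, hc0, fun u => rfl, rfl, fun z => rfl⟩
  · intro z hz
    have hz1 : z ≠ 1 := by
      rintro rfl
      simp at hz
    exact hlt z (by linarith) hz1
  · exact (hΛd.comp ((differentiable_const _).add differentiable_id)).const_mul c
  · intro δ hδ
    obtain ⟨K, hK, h1⟩ := hΛg (δ / 2) (by positivity)
    refine ⟨K * Real.exp (δ / 4), by positivity, fun z => ?_⟩
    rw [norm_mul, hc, one_mul]
    refine (h1 _).trans ?_
    rw [mul_assoc, ← Real.exp_add]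
    refine mul_le_mul_of_nonneg_left (Real.exp_le_exp.2 ?_) hK.le
    have h2 : ‖(1 / 2 + z : ℂ)‖ ≤ 1 / 2 + ‖z‖ := by
      refine (norm_add_le _ _).trans ?_
      norm_num
    have h3 : ‖(1 / 2 + z : ℂ)‖ ^ 2 ≤ (1 / 2 + ‖z‖) ^ 2 := by
      gcongr
    nlinarith [norm_nonneg z, sq_nonneg (‖z‖ - 1 / 2)]
  · intro z hz
    rw [abs_le]
    constructor
    · by_contra hcon
      push Not at hcon
      have h1 := hsymX z
      have h2 : c * Λ (1 / 2 + z) = 0 := hz
      rw [h2, map_zero] at h1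
      refine hhalf (-conj z) ?_ h1
      rw [neg_re, conj_re]
      linarith
    · by_contra hcon
      push Not at hcon
      exact hhalf z (by linarith) hz
  · intro z hz
    set s : ℂ := 1 / 2 + z with hs
    have hs1 : 1 < s.re := by rw [hs, hre]; linarith
    have hs0 : 0 < s.re := by linarith
    have n1 : s ≠ 0 := by intro h; rw [h] at hs1; simp at hs1; linarith
    have n2 : s ≠ 1 := by intro h; rw [h] at hs1; simp at hs1
    have hX : logDeriv (fun z => c * Λ (1 / 2 + z)) z = logDeriv Λ s := by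
      have h1 : logDeriv (fun z => c * Λ (1 / 2 + z)) z = logDeriv (fun z => Λ (1 / 2 + z)) z :=
        logDeriv_const_mul z c hc0
      rw [h1, logDeriv_apply, logDeriv_apply, deriv_comp_const_add]
    have hev : Λ =ᶠ[𝓝 s] fun z => (z * (z - 1)) ^ p * (GG N e z * L z) := by
      have h1 : ∀ᶠ z in 𝓝 s, 1 < z.re := (isOpen_lt continuous_const continuous_re).mem_nhds hs1
      filter_upwards [h1] with y hy
      exact hEq y hy
    have hld : logDeriv Λ s = logDeriv (fun z => (z * (z - 1)) ^ p * (GG N e z * L z)) s := by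
      rw [logDeriv_apply, logDeriv_apply, hev.deriv_eq, hev.eq_of_nhds]
    have hne1 : GG N e s ≠ 0 := GG_ne hN e hs0
    have hne2 : L s ≠ 0 := hL0 s hs1
    have hdp : DifferentiableAt ℂ (fun z : ℂ => (z * (z - 1)) ^ p) s := by fun_prop
    have hpne : (s * (s - 1)) ^ p ≠ 0 := pow_ne_zero _ (mul_ne_zero n1 (sub_ne_zero.2 n2))
    have hdG := GG_diffAt hN e hs0
    have hdL := hL s hs1
    have e1 : s - 1 / 2 = z := by rw [hs]; ring
    have hm2 : logDeriv (fun z : ℂ => GG N e z * L z) s =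
        logDeriv (GG N e) s + logDeriv L s := logDeriv_mul s hne1 hne2 hdG hdL
    have hm1 : logDeriv (fun z : ℂ => (z * (z - 1)) ^ p * (GG N e z * L z)) s =
        logDeriv (fun z : ℂ => (z * (z - 1)) ^ p) s + logDeriv (fun z : ℂ => GG N e z * L z) s :=
      logDeriv_mul s hpne (mul_ne_zero hne1 hne2) hdp (hdG.mul hdL)
    rw [hX, hld, hm1, hm2, pole_logDeriv p n1 n2, GG_logDeriv hN e he hs0, hLd s hs1, e1]
    have e2 : s + 1 = 3 / 2 + z := by rw [hs]; ring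
    have e3 : z + 1 / 2 = s := by rw [hs]; ring
    have e4 : z - 1 / 2 = s - 1 := by rw [hs]; ring
    rw [e2, e3, e4]
    ring

end Pool.Agent.Q31.NF
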